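import Mathlib
import Pool.Agent.H841.HC5.TateAny

/-!
# The Tate conjecture for the abelian varieties, of any dimension, with factors with real multiplication
and factors of one abelian variety of dimension at most five

Let `X` be an abelian variety of **any dimension** over a field `k ⊂ ℂ` which is finitely generated over
`ℚ`. We suppose that there is an abelian variety `A₀` of dimension at most five (no condition on its
endomorphism algebras: all types, all CM fields of all degrees) such that each simple abelian subvariety
`U` of `X` over `ℂ`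

* has real multiplication of odd relative dimension or of relative dimension two (the endomorphism
  algebra of `U` has a totally real maximal commutative subfield, of degree `dim U / k`, where the relative
  dimension `k` is odd or two; Albert types I and II), or
* is isogenous to an abelian subvariety of `A₀`;

and that no `U` is a fourfold with only the trivial endomorphisms, or with multiplication by a definite
quaternion algebra over `ℚ`.

The number of the simple factors, their multiplicities and the dimensions of the factors with real
multiplication are arbitrary. For example `X` can be the product of any power of an arbitrary abelian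
variety of dimension at most three and of any number of abelian varieties of prime dimension with real
multiplication.

**Theorem.** For each prime number `ℓ` all `ℓ`-adic Tate classes on `X`, of all degrees, are
`ℚ_ℓ`-combinations of classes in the ring generated by the classes of divisors and by the pull-backs of
the Weil classes for imaginary quadratic fields on abelian fourfolds and on abelian sixfolds of
discriminant `-1`.

These classes are algebraic by theorems of Lefschetz and Markman (2025). So, with these theorems, the
Tate conjecture is true for all these `X`, over all finite extensions of `k`, in all degrees.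

The Tate module is described as in the library (`IsTateModule`: Weil pairing, Faltings, Hodge-Tate
decomposition, Serre, Pink, which are known properties of the Tate module of `X`); `IsTateClass` are the
Tate classes: the alternating forms on the Tate module in `2 m` variables which are multiplied by the
`m`-th power of the cyclotomic character by a subgroup of finite index of the Galois group.

If the simple factors of `X` are factors of an abelian variety of dimension at most seven (of bounded
total dimension, up to multiplicities), this is `MP_c184fc_ag.RealOrSmallFactors`, which also has the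
fourfolds with definite quaternion algebras. In the library (`MP_640417_ag.AdmissibleFactors`) the factors
with complex multiplication are elliptic curves and the others without real multiplication have
imaginary quadratic fields or dimension at most three; and the system of classes is stable under
push-forwards along projections, which are not needed here.

Proof. Tate classes on `X` are combinations of Hodge classes (the Mumford-Tate conjecture for these `X`;
as in the library, `Pool.Agent.Y91.L.tate_kill`): the simple factors are of the types for which the Lie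
algebra generated by the Hodge-Tate elements contains elements of rank one on each irreducible submodule,
and factors with real multiplication, all multiplicities of which are equal, are never twists of other
factors, so that the blocks of this Lie algebra are independent. Hodge classes are then treated as in
part (3) of `MP_e12fcd_ag.AllPowersDimensionFive`: they are combinations of products of pairings
and of determinants of equivariant maps to irreducible submodules of the complex homology; the
combinatorial heart is that the minimal relations between the multiplicities of the complex structure in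
the conjugates of submodules of total dimension at most ten are of one of two kinds (total dimension four,
all coefficients one; or one line with coefficient two and total dimension four otherwise) and are
defined over imaginary quadratic fields.
-/

namespace Pool.Agent.Results.MP_640417_ag.AllFactorsDimensionFive

open Module TensorProduct
open Pool.Agent.Y90 (AV)
open Pool.Agent.Y90.St (IsHom IsSimpleSub IsPolarization WeilRing)
open Pool.Agent.Y224.TS.St (IsTateModule)

section definitions

variable {H T : Type} [AddCommGroup H] [Module ℚ H] [AddCommGroup T] [Module ℂ T]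

/-- The endomorphism algebra of the simple abelian subvariety `U` has a maximal commutative subfield
`ℚ(a)` which is totally real (`a` is an endomorphism of `U`, all endomorphisms of `U` which commute with
`a` are polynomials in `a`, and all roots of the minimal polynomial of `a` are real), and the relative
dimension `k = dim U / [ℚ(a) : ℚ]` is odd or two. -/
def HasOddRealMultiplication (per : H →+ T) (U : Submodule ℚ H) : Prop :=
  ∃ a : U →ₗ[ℚ] U,
    ((∃ Ψ : T →ₗ[ℂ] T, ∀ u : U, Ψ (per u) = per (a u)) ∧
      ∀ b : U →ₗ[ℚ] U, (∃ Ψ : T →ₗ[ℂ] T, ∀ u : U, Ψ (per u) = per (b u)) → b ∘ₗ a = a ∘ₗ b →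
        b ∈ Algebra.adjoin ℚ ({a} : Set (Module.End ℚ U))) ∧
    (∀ z ∈ (minpoly ℚ a).aroots ℂ, z.im = 0) ∧
    ∃ k : ℕ, (Odd k ∨ k = 2) ∧ finrank ℚ U = 2 * (k * (minpoly ℚ a).natDegree)

/-- The endomorphism algebra of the simple abelian subvariety `U` is a definite quaternion algebra over
`ℚ`: the centre is `ℚ`, some endomorphism is not a scalar, and each endomorphism all eigenvalues of
which are real is a scalar. -/
def IsDefiniteQuaternion (per : H →+ T) (U : Submodule ℚ H) : Prop :=
  (∀ b : U →ₗ[ℚ] U, (∃ Ψ : T →ₗ[ℂ] T, ∀ u : U, Ψ (per u) = per (b u)) →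
    (∀ c : U →ₗ[ℚ] U, (∃ Ψ : T →ₗ[ℂ] T, ∀ u : U, Ψ (per u) = per (c u)) → b ∘ₗ c = c ∘ₗ b) →
      ∃ r : ℚ, b = r • LinearMap.id) ∧
  (∃ b : U →ₗ[ℚ] U, (∃ Ψ : T →ₗ[ℂ] T, ∀ u : U, Ψ (per u) = per (b u)) ∧
    ∀ r : ℚ, b ≠ r • LinearMap.id) ∧
  ∀ b : U →ₗ[ℚ] U, (∃ Ψ : T →ₗ[ℂ] T, ∀ u : U, Ψ (per u) = per (b u)) →
    (∀ z ∈ (minpoly ℚ b).aroots ℂ, z.im = 0) → ∃ r : ℚ, b = r • LinearMap.id

/-- The simple abelian subvariety `U` has an endomorphism which is not a rational scalar. -/
def HasEndomorphism (per : H →+ T) (U : Submodule ℚ H) : Prop :=
  ∃ f : U →ₗ[ℚ] U, (∃ Ψ : T →ₗ[ℂ] T, ∀ u : U, Ψ (per u) = per (f u)) ∧ ∀ c : ℚ, f ≠ c • 1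

end definitions

/-- There is an abelian variety `A₀` of dimension at most five such that each simple abelian
subvariety `U` of `X` has real multiplication of relative dimension odd or two, or a homomorphism to `A₀`
with finite kernel; and no `U` is a fourfold with only the trivial endomorphisms or with multiplication by
a definite quaternion algebra over `ℚ`. -/
def BuiltFromMany (X : AV) : Prop :=
  ∃ A₀ : AV, finrank ℂ A₀.T ≤ 5 ∧ ∀ U : Submodule ℚ X.H, IsSimpleSub X.per U →
    (HasOddRealMultiplication X.per U ∨
      ∃ r : X.H →ₗ[ℚ] A₀.H, IsHom X.per A₀.per r ∧ ∀ u ∈ U, r u = 0 → u = 0) ∧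
    (finrank ℚ U = 8 → HasEndomorphism X.per U ∧ ¬IsDefiniteQuaternion X.per U)

/-- Simple abelian subvarieties of dimension six with real multiplication of relative dimension odd or two
have endomorphisms besides the scalars. -/
theorem hasEndomorphism_of_six {H T : Type} [AddCommGroup H] [Module ℚ H] [AddCommGroup T]
    [Module ℂ T] {per : H →+ T} {U : Submodule ℚ H} (h : HasOddRealMultiplication per U)
    (h6 : finrank ℚ U = 12) : HasEndomorphism per U := by
  obtain ⟨a, ⟨⟨Ψ, hΨ⟩, -⟩, -, k, hk, hd⟩ := h
  refine ⟨a, ⟨Ψ, hΨ⟩, fun c hc => ?_⟩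
  have h1 : Polynomial.aeval a (Polynomial.X - Polynomial.C c) = 0 := by
    rw [map_sub, Polynomial.aeval_X, Polynomial.aeval_C, hc, Algebra.algebraMap_eq_smul_one, sub_self]
  have h2 : (minpoly ℚ a).natDegree ≤ 1 := by
    have h3 := Polynomial.natDegree_le_of_dvd (minpoly.dvd ℚ a h1) (Polynomial.X_sub_C_ne_zero c)
    rwa [Polynomial.natDegree_X_sub_C] at h3
  rw [h6] at hd
  interval_cases h4 : (minpoly ℚ a).natDegree
  · omega
  · rcases hk with ⟨t, ht⟩ | hk
    · omega
    · omega

/-- Abelian subvarieties of `X` which embed in `A₀`, up to isogeny, have dimension at most five. -/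
theorem finrank_le_ten {X A₀ : AV} (h5 : finrank ℂ A₀.T ≤ 5) {U : Submodule ℚ X.H}
    {r : X.H →ₗ[ℚ] A₀.H} (hr : ∀ u ∈ U, r u = 0 → u = 0) : finrank ℚ U ≤ 10 := by
  have := A₀.finH
  have h1 : Function.Injective (r ∘ₗ U.subtype) := by
    rw [← LinearMap.ker_eq_bot, LinearMap.ker_eq_bot']
    intro u hu
    exact Subtype.ext (hr u u.2 hu)
  have h2 := LinearMap.finrank_le_finrank_of_injective h1
  have h3 := A₀.rank
  omega

/-- `φ` is a Tate class in `H^{2m}(X, ℚ_ℓ)(m)`, for some finite extension of the field. -/
def IsTateClass {ℓ : ℕ} [Fact ℓ.Prime] {H Γ : Type} [AddCommGroup H] [Module ℚ H] [Group Γ]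
    (ρ : Representation ℚ_[ℓ] Γ (ℚ_[ℓ] ⊗[ℚ] H)) (χ : Γ →* ℚ_[ℓ]) (m : ℕ)
    (φ : (ℚ_[ℓ] ⊗[ℚ] H) [⋀^Fin (2 * m)]→ₗ[ℚ_[ℓ]] ℚ_[ℓ]) : Prop :=
  ∃ Δ : Subgroup Γ, Δ.FiniteIndex ∧ ∀ g ∈ Δ, ∀ v : Fin (2 * m) → ℚ_[ℓ] ⊗[ℚ] H,
    φ (fun k => ρ g (v k)) = χ g ^ m * φ v

/-- **Tate classes on the abelian varieties of any dimension built from factors with real multiplication
and from the factors of one abelian variety of dimension at most five** are combinations of products of
divisor classes and of pull-backs of Weil classes for imaginary quadratic fields on fourfolds and on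
sixfolds of discriminant `-1`. -/
theorem result (X : AV) (hX : BuiltFromMany X)
    (E : X.H → X.H → ℚ) (hE : IsPolarization X.per E)
    (ℓ : ℕ) [Fact ℓ.Prime] [Algebra ℚ_[ℓ] ℂ] [Algebra.IsAlgebraic ℚ_[ℓ] ℂ]
    {Γ : Type} [Group Γ] (ρ : Representation ℚ_[ℓ] Γ (ℚ_[ℓ] ⊗[ℚ] X.H)) (χ : Γ →* ℚ_[ℓ])
    (hρ : IsTateModule X.per E ρ χ) (m : ℕ)
    (φ : (ℚ_[ℓ] ⊗[ℚ] X.H) [⋀^Fin (2 * m)]→ₗ[ℚ_[ℓ]] ℚ_[ℓ]) (hφ : IsTateClass ρ χ m φ) :
    ∃ (n : ℕ) (c : Fin n → ℚ_[ℓ]) (f : Fin n → (X.H [⋀^Fin (2 * m)]→ₗ[ℚ] ℚ)),
      (∀ j, WeilRing X.per (Fin (2 * m)) (f j)) ∧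
      ∀ v : Fin (2 * m) → X.H, φ (fun k => (1 : ℚ_[ℓ]) ⊗ₜ[ℚ] v k) =
        ∑ j, c j * ((f j v : ℚ) : ℚ_[ℓ]) := by
  obtain ⟨A₀, h5, h⟩ := hX
  refine Pool.Agent.H841.HC5.tate_weil_any (AV.isAV X) (AV.isAV A₀) h5 (fun U hU => ?_)
    (fun U hU => ?_) (fun U hU h8 => ((h U hU).2 h8).2) (fun U hU h8 => ?_) hE hρ
    (Nat.card_fin (2 * m)) φ hφ
  · exact (h U hU).1.imp (fun ⟨a, h1, h2, _⟩ => ⟨a, h1, h2⟩) id
  · rcases (h U hU).1 with h1 | ⟨r, -, hr⟩
    · exact Or.inr h1
    · have := finrank_le_ten h5 hr
      exact Or.inl (by omega)
  · rcases h8 with h8 | h8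
    · exact ((h U hU).2 h8).1
    · rcases (h U hU).1 with h1 | ⟨r, -, hr⟩
      · exact hasEndomorphism_of_six h1 h8
      · have := finrank_le_ten h5 hr
        omega

end Pool.Agent.Results.MP_640417_ag.AllFactorsDimensionFive
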