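import Pool.Agent.H852.J.M2
import Pool.Agent.H852.J.H4

/-!
# From the Galois image modulo FOUR to the Tate conjecture at every prime number, for abelian varieties

Let `K` be a number field with absolute Galois group `G`, and let `A 0, ..., A (n - 1)` be abelian varieties over
`K` with polarizations of odd degree. Let `T_2(A i)` be the 2-adic Tate modules, with the Weil pairings. We
consider the following conditions on the finite groups `A i [4]`.

* `Tight`: there is no subgroup `W` of `A i [2]`, different from `0` and `A i [2]`, such that each `g` in `G`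
  maps `W` to itself or to a subgroup orthogonal to `W` for the Weil pairing. This holds if the representation
  `A i [2]` is irreducible and primitive (if `W` is such a subgroup then the different `g W` are pairwise
  orthogonal, and `A i [2]` is their direct sum), and also if `A i [2]` is generated by the vectors of a connected
  orbit (for the graph where the pairs with nonzero Weil pairing are joined).
* For all `j < i` some element `g` of `G` acts on `A i [4]` as the `c`-th power of a transvection
  `x ↦ x + c (v, x) v`, `v` not divisible by two, `c` not divisible by FOUR, and trivially on `A j [4]` and on the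
  eighth roots of unity (`IsTransvection`).
* Let `Z` be ANY pure motive over `K`, for instance `H ^ w` of any smooth projective variety, with a lattice `τ`
  over `ℤ_2`. For all `i` some `g` in `G` acts on `A i [4]` as such a power of a transvection, and trivially on the
  lattice modulo four and on the eighth roots of unity.

**Theorem.** Then for EVERY prime number `ℓ` all Tate classes on all the products `∏ (A i) ^ (m i) × Z` are
combinations of products of Tate classes of degree two on the abelian variety and Tate classes of `Z`. By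
Faltings the Tate classes of degree two are algebraic. So the Tate conjecture holds at every `ℓ`, in all degrees,
for all products of powers of the `A i`, and the Tate conjecture for their products with `Z` is equivalent to the
Tate conjecture for `Z`.

Example: let `v` be a place of `K` not above `2` where `A i` has semistable reduction of toric rank one, such that
the order of the group of components is not divisible by four, and where the other factors `A j` have good
reduction, and `Z` too. Then a generator of the inertia group at `v` has the required properties. But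
the elements `g` need not be in inertia groups; they need not be unipotent on `T_2(A i)`, and nothing is
assumed about the places of bad reduction. The hypotheses concern only the finite Galois group of the field
generated by the `A i [4]`, the eighth roots of unity and the lattice of `Z` modulo four. There is no
assumption on endomorphisms, simplicity (over extensions), isogenies between the `A i`, Mumford-Tate groups or
Newton polygons, and the image of Galois on `A i [2]` can be much smaller than the group of symplectic
similitudes: for instance the symmetric group `S_m` in its representation of degree `m - 2` or `m - 1`.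

The definitions `AtPrime`, `IsWeil`, `HasFrobenius`, `IsLattice`, `IsFrobenius` are those of the module
`Pool.Graph.R_pool_sql_team_seeded_63374d34.Results.MP_640417_ag.HyperellipticEveryPrime`. The abelian
varieties are given by the actions on the 2-adic Tate modules `T_2(A i)` in a basis (`IsTateLattice`); the
data of `EveryPrime` are the Frobenius polynomials `P v` of their product and `Q v` of `Z`, pure of
weights `1` and `w`, outside of a finite set of places, and the conclusion concerns all the representations
`V` over `ℚ_ℓ` with the properties of `V_ℓ(A)`, `A = ∏ A i` (Weil pairing, semisimplicity, Frobenius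
polynomials `P v`), and all `ℓ`-adic realizations of `Z` (Frobenius polynomials `Q v`).

Idea of the proof. If `c` is odd, the square of `g` is modulo four a square root `1 + 2 E` of a transvection of
`T_2(A i)`, `E x = (v, x) v`. The set of the vectors `v` for which such elements exist (trivial modulo four on
`A j` or `Z`) is stable under `G`. A connected component of the graph of these vectors generates a submodule `W`
which is mapped by each `g` to itself or to an orthogonal submodule, modulo two; so it is everything
(`Pool.Agent.H852.J.tan_of_tight`). The squares of these elements are congruent to `1 + 4 E` modulo eight, and their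
logarithms generate the symplectic Lie algebra over `ℤ_2` by Nakayama's lemma; all this with values zero in the
other representation. An induction over pairs of factors and over the indices `i` shows that the image of Galois
on the product contains, infinitesimally, the product of the symplectic Lie algebras, with component
zero on `Z`. The passage from `2` to all prime numbers `ℓ` is the one of helper197 (relations between Frobenius
eigenvalues which hold for infinitely many places, `Pool.Agent.N197.AP.main20`).
-/

set_option autoImplicit false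

namespace Pool.Agent.Results.MP_640417_ag.ImageModFour

open Matrix Polynomial NumberField IsDedekindDomain
open Pool.Agent.Results.MP_640417_ag.HyperellipticEveryPrime (AbsoluteGaloisGroup IsLattice IsWeil
  IsFrobenius HasFrobenius matRep AtPrime)

/-- The 2-adic Tate module `T_2(A)` of an abelian variety with a polarization of odd degree: the action `ρ` of
the Galois group and the matrix `J` of the Weil pairing in a basis over `ℤ_2`; `χ` is the cyclotomic
character. -/
structure IsTateLattice {K : Type} [Field K] {N : ℕ} (χ : AbsoluteGaloisGroup K →* ℤ_[2]ˣ)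
    (J : Matrix (Fin N) (Fin N) ℤ_[2])
    (ρ : AbsoluteGaloisGroup K →* Matrix (Fin N) (Fin N) ℤ_[2]) : Prop where
  positive : 0 < N
  continuous : Continuous ρ
  alternating : Jᵀ = -J
  unimodular : IsUnit J.det
  similitude : ∀ g, (ρ g)ᵀ * J * ρ g = (χ g : ℤ_[2]) • J

/-- No subgroup of `A[2]` different from `0` and `A[2]`, i. e. no submodule `W` between `2 T_2(A)` and `T_2(A)`, is
mapped by each element of the Galois group to itself or to a subgroup orthogonal to it. -/
def Tight {K : Type} [Field K] {N : ℕ} (J : Matrix (Fin N) (Fin N) ℤ_[2])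
    (ρ : AbsoluteGaloisGroup K →* Matrix (Fin N) (Fin N) ℤ_[2]) : Prop :=
  ∀ W : Submodule ℤ_[2] (Fin N → ℤ_[2]), (∀ x, (2 : ℤ_[2]) • x ∈ W) →
    (∃ x ∈ W, ∀ y, x ≠ (2 : ℤ_[2]) • y) →
    (∀ g, (∀ x ∈ W, ρ g *ᵥ x ∈ W) ∨ ∀ x ∈ W, ∀ y ∈ W, (2 : ℤ_[2]) ∣ x ⬝ᵥ J *ᵥ (ρ g *ᵥ y)) → W = ⊤

/-- `g` acts on `A[4]` as the power `x ↦ x + c (v, x) v` of a transvection, where `v` is not divisible by two and
`c` is not divisible by four, and trivially on the eighth roots of unity. -/
def IsTransvection {K : Type} [Field K] {N : ℕ} (χ : AbsoluteGaloisGroup K →* ℤ_[2]ˣ)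
    (J : Matrix (Fin N) (Fin N) ℤ_[2])
    (ρ : AbsoluteGaloisGroup K →* Matrix (Fin N) (Fin N) ℤ_[2]) (g : AbsoluteGaloisGroup K) : Prop :=
  (8 : ℤ_[2]) ∣ (χ g : ℤ_[2]) - 1 ∧
  ∃ (v : Fin N → ℤ_[2]) (c : ℤ), ¬ 4 ∣ c ∧ (∀ y, v ≠ (2 : ℤ_[2]) • y) ∧
    ∀ x, ∃ y, ρ g *ᵥ x = x + (c * (v ⬝ᵥ J *ᵥ x)) • v + (4 : ℤ_[2]) • y

/-- `g` acts trivially on `A[4]` -/
def TrivialOnFour {K : Type} [Field K] {N : ℕ}
    (ρ : AbsoluteGaloisGroup K →* Matrix (Fin N) (Fin N) ℤ_[2]) (g : AbsoluteGaloisGroup K) : Prop :=
  ∃ M : Matrix (Fin N) (Fin N) ℤ_[2], ρ g = 1 + (4 : ℤ_[2]) • M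

/-- the matrix `τ g` is congruent to `1` modulo four -/
def TrivialModFour {K : Type} [Field K] {d : ℕ}
    (τ : AbsoluteGaloisGroup K →* Matrix (Fin d) (Fin d) ℚ_[2]) (g : AbsoluteGaloisGroup K) : Prop :=
  ∀ a b, ‖(τ g - 1) a b‖ < 1 / 2

/-- The 2-adic representation on `V_2(A 0) ⊕ ... ⊕ V_2(A (n - 1))` has the Frobenius polynomials `P v`, and `χ` is
the cyclotomic character. -/
def AbelianFrobenius {K : Type} [Field K] [NumberField K] {n : ℕ} {N : Fin n → ℕ}
    (χ : AbsoluteGaloisGroup K →* ℤ_[2]ˣ)
    (ρ : ∀ i, AbsoluteGaloisGroup K →* Matrix (Fin (N i)) (Fin (N i)) ℤ_[2])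
    (S : Set (HeightOneSpectrum (𝓞 K))) (P : HeightOneSpectrum (𝓞 K) → ℚ[X]) : Prop :=
  ∀ v ∉ S, (2 : 𝓞 K) ∉ v.asIdeal → ∀ σ : AbsoluteGaloisGroup K, IsFrobenius v σ →
    ((χ σ : ℤ_[2]) = (Ideal.absNorm v.asIdeal : ℤ_[2])) ∧
    ∏ i, ((ρ i σ).map (algebraMap ℤ_[2] ℚ_[2])).charpoly = (P v).map (Rat.castHom ℚ_[2])

/-- **Tate classes at every prime number** on all products of powers of the abelian varieties `A i` with `Z`, where
`Z` is any pure motive whose 2-adic realization is `τ`. -/
def EveryPrime {K : Type} [Field K] [NumberField K] {n : ℕ} {N : Fin n → ℕ}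
    (χ : AbsoluteGaloisGroup K →* ℤ_[2]ˣ)
    (ρ : ∀ i, AbsoluteGaloisGroup K →* Matrix (Fin (N i)) (Fin (N i)) ℤ_[2]) {d : ℕ}
    (τ : AbsoluteGaloisGroup K →* Matrix (Fin d) (Fin d) ℚ_[2]) : Prop :=
  ∀ (S : Set (HeightOneSpectrum (𝓞 K))) (m : ℕ) (w : ℤ) (P Q : HeightOneSpectrum (𝓞 K) → ℚ[X]),
    S.Finite → (∀ v ∉ S, IsWeil v 1 m (P v) ∧ IsWeil v w m (Q v)) →
    AbelianFrobenius χ ρ S P → HasFrobenius S Q 2 (matRep τ) →
    ∀ (ℓ : ℕ) [Fact ℓ.Prime], AtPrime S P Q ℓ

/-- **The Tate conjecture at every prime number for products of powers of abelian varieties with any `Z`, from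
the Galois image modulo four.** -/
theorem result {K : Type} [Field K] [NumberField K] {n : ℕ} (hn : 0 < n) {N : Fin n → ℕ}
    (χ : AbsoluteGaloisGroup K →* ℤ_[2]ˣ) (J : ∀ i, Matrix (Fin (N i)) (Fin (N i)) ℤ_[2])
    (ρ : ∀ i, AbsoluteGaloisGroup K →* Matrix (Fin (N i)) (Fin (N i)) ℤ_[2])
    (h : ∀ i, IsTateLattice χ (J i) (ρ i)) (htight : ∀ i, Tight (J i) (ρ i))
    {d : ℕ} (τ : AbsoluteGaloisGroup K →* Matrix (Fin d) (Fin d) ℚ_[2]) (hτ : IsLattice τ)
    (hpair : ∀ i j, j < i → ∃ g, IsTransvection χ (J i) (ρ i) g ∧ TrivialOnFour (ρ j) g)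
    (hZ : ∀ i, ∃ g, IsTransvection χ (J i) (ρ i) g ∧ TrivialModFour τ g) :
    EveryPrime χ ρ τ := by
  intro S m w P Q hS hPQ hA hτQ ℓ _ V M _ _ _ _ _ _ r c s hr h2
  obtain ⟨t, ht⟩ := Pool.Agent.H852.J.exists_lat τ hτ.2
  refine Pool.Agent.H852.J.lattices_main J ρ χ hn (fun i => (h i).positive)
    (fun i => (h i).alternating) (fun i => (h i).unimodular) (fun i => (h i).continuous)
    (fun i => (h i).similitude) htight t
    (fun i j hij => ?_) (fun i => ?_) τ hτ.1 ht S hS P Q (fun v hv z hz => ?_)
    (fun v hv z hz => (hPQ v hv).2 z hz) hA (fun v hv hv2 σ hσ => ?_) ℓ V M r c s hr.1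
    (fun v hv hvℓ σ hσ => ⟨(hr.2 v hv hvℓ σ hσ).1, (hr.2 v hv hvℓ σ hσ).2, h2 v hv hvℓ σ hσ⟩)
  · obtain ⟨g, ⟨hg1, hg2⟩, hg3⟩ := hpair i j hij
    exact ⟨g, hg2, hg1, hg3⟩
  · obtain ⟨g, ⟨hg1, hg2⟩, hg3⟩ := hZ i
    exact ⟨g, hg2, hg1, Pool.Agent.H852.J.trivial_lat ht hg3⟩
  · have h3 := (hPQ v hv).1 z hz
    rwa [zpow_one] at h3
  · have h3 := hτQ v hv (by rwa [Nat.cast_ofNat]) σ hσ
    rw [← h3]
    exact (Matrix.charpoly_toLin' (τ σ⁻¹)).symm

end Pool.Agent.Results.MP_640417_ag.ImageModFour
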