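import Pool.Agent.H852.J.V5
import Pool.Agent.H852.J.V6
import Pool.Agent.H852.J.V7
import Pool.Agent.H852.J.V8

/-!
# The Tate conjecture at every prime for the maximal covers of exponent two of the line, branched at given points

Let `L` be a number field and `r 0, ..., r (n - 1)` points of `L`, `n ≥ 3`. For each set `R` of at least three indices
and each `c R` in `L`, not zero, there is the hyperelliptic curve

  `C_R : c R * y ^ 2 = ∏_{i ∈ R} (x - r i)`

over `L`, branched at the points `r i`, `i ∈ R`, and at infinity if the number of the elements of `R` is odd. If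
`c R = ∏_{i ∈ R} c i` these `2 ^ n - 1 - n - n (n - 1) / 2` curves are the quotients of genus at least one, of degree
two over the line, of the curve

  `X : c i * u_i ^ 2 = x - r i`, `i = 0, ..., n - 1`,

the maximal cover of the line with a group of exponent two, `(ℤ/2) ^ n`, which is unramified outside of the points `r i`
and infinity, and the Jacobian `J(X)` is isogenous to the product of all the `J(C_R)`. For example, the unramified
covers with groups of exponent two of the hyperelliptic curve `C : y ^ 2 = ∏ (x - r i)`, all of them, and the
Prym varieties of the unramified double covers of `C`, come from the curves `C_R`.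

**Theorem.** The property `AllSubsets` says: for ALL the sets `R` with at least three elements simultaneously, any
choice of models and any choice of the factors `c R` with even valuations outside of the prime divisors of `N`
(quadratic twists, one for each `R`), the statement `EveryPrime` is true for the family of all the curves `C_R`, and
`Z`. It means that for EVERY prime number `ℓ` all Tate classes on `∏_R J(C_R) ^ (m_R) × Z`, for arbitrary exponents
`m_R`, in all degrees, are linear combinations of products of Tate classes of degree two on the abelian variety
(algebraic by Faltings) and Tate classes of `Z`. So the Tate conjecture for all the products `J(X) ^ m × Z` is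
EQUIVALENT to the Tate conjecture for `Z`, and true for all the powers of `J(X)`. Here `Z` is ANY pure motive over
`L`, for instance `H ^ w` of any smooth projective variety, of any dimension, with a lattice `τ` over `ℤ_2`.

1. (Criterion) Let `N ≥ 0`. Assume that for any two indices `s ≠ t` there is a place `w` of `L`, not above the prime
   divisors of `2 N`, at which the valuation of `r s - r t` is odd and the valuations of all other differences
   `r x - r y` are even (`Collide`), for example all other differences are units. Then `AllSubsets` is true for all
   `Z` which are unramified modulo four outside of `N`.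
2. (Random polynomials) There is ONE set `E` of integral vectors `a = (a_0, ..., a_n)`, of density zero (`AlmostAll`,
   ordered by the maximum of the absolute values of the coordinates) such that for EVERY number field `K` and every
   `N ≥ 1` all `a` outside of `E`, with only finitely many exceptions, have the following property. Let `L` be
   the splitting field over `K` of `f = ∑ a_i x ^ i`, and `r 0, ..., r (n - 1)` the roots. Then `AllSubsets` is true for
   all `Z` over `L` which are unramified modulo four outside of `N a_n`, and twists as above. (The polynomial `f` is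
   arbitrary, of odd or even degree; `C_R` for the set `R` of all roots and `c R = a_n` is the curve `y ^ 2 = f (x)`.)
3. (Random points) There is ONE set `E` of integral vectors `x = (x_0, ..., x_(n-1))`, which for all `H ≥ 1` contains at
   most `50 n ^ 4 (2 H + 1) ^ n / H ^ (1 / (6 n ^ 2 + 6))` vectors with coordinates of absolute value at most `H` (a
   power saving), such that for EVERY number field `K`, with the discriminant `d`, every `N ≥ 1` and all `x` outside
   of `E` of height at least `(2 |d| N) ^ (6 n ^ 2 + 6)` the following is true: `AllSubsets` is true for the points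
   `r i = x i` of `K` and for all `Z` over `K` which are unramified modulo four outside of `N`. This part is
   explicit and effective.
4. (Families) Let `K` be a number field and `r_0 (t), ..., r_(n-1) (t)` polynomials in `K[t]` such that for any `s ≠ t` at
   least five of the SIMPLE zeros of the product `Δ` of all the differences `r_i - r_j`, `i < j`, are zeros of
   `r_s - r_t` (`Meetings`). There is no condition on the other zeros of `Δ`. Let `N ≥ 1`. Then for all `c` in `K`,
   outside of a FINITE set, `AllSubsets` is true for the points `r_i (c)` of `K` and for all `Z` over `K` which are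
   unramified modulo four outside of `N`. (Families of branch points with coefficients in an extension `K'` of `K`
   are covered, with `K'` instead of `K`.)

For a fixed `Z`, `ℓ` and one curve `C_R` the finiteness in the last part would follow from the uniform open image
theorem of Cadoret and Tamagawa, with a finite set which depends on `ℓ` and `Z`.

There are no large Galois groups here: all branch points are rational over `L`, the Galois group acts trivially on
the points of order two of all these Jacobians.

**The models.** The definition `EveryPrime` is for the curves `y ^ 2 = g (x)` with a monic polynomial `g` of odd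
degree (the groups of points of the Jacobians are the class groups of the rings `F[x, y]`). Let `c = c R`. For `R` of
odd cardinality the polynomial `∏_{i ∈ R} (X - c r i)` is such a model of `C_R`, by the substitution `X = c x`,
`Y = c ^ ((#R + 1) / 2) y` (`branchModel_none`). For `R` of even cardinality and `j ∈ R` the substitution
`x = r j + D / U`, `X = c U`, `D Y = (c U) ^ (#R / 2) y`, where `D = ∏_{i ∈ R, i ≠ j} (r j - r i)`, gives the model
`∏_{i ∈ R, i ≠ j} (X - c D / (r i - r j))`, of degree `#R - 1` (`branchModel_some`). The results are true for any
choice of the base points `j`.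

The definitions `EveryPrime` and `IsLattice` are those of the module
`Pool.Graph.R_pool_sql_team_seeded_63374d34.Results.MP_640417_ag.HyperellipticEveryPrime`: the data of `EveryPrime`
are the Frobenius polynomials `P v` of the action on the 2-adic Tate modules of the Jacobians and `Q v` of `Z`, pure
of weights `1` and `w`, outside of a finite set of places, and the conclusion concerns, for all `ℓ`, all the
representations over `ℚ_ℓ` with the properties of `V_ℓ` of the abelian variety (Weil pairing, semisimplicity,
Frobenius polynomials `P v`) and all `ℓ`-adic realizations of `Z` (Frobenius polynomials `Q v`).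

Idea of the proof. Let `w` be a place at which exactly `r s` and `r t` collide (for the other differences, modulo four
only the parities of the valuations matter, `CollideE`). If `R` does not contain both `s` and `t`,
`C_R` has good reduction at `w`. Otherwise it has exactly one node, and the inertia group at `w` acts modulo four on
the Tate module of `J(C_R)` by a square root of a transvection: with respect to the given model its vector is the sum
of the two points `s`, `t` of order two if both of them are finite points of the model, and if one of them is the base
point, the sum of an even number of points of order two, all but one (`br_base`). For two sets `R`, `R'`, the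
number of elements of `R` at least that of `R'`, choose an element `s` of `R` which is not in `R'`. The places for the
pairs `s, t`, `t ∈ R`, are places of good reduction for `C_{R'}`, and the corresponding vectors generate the
symplectic Lie algebra for `C_R` modulo two (a star if `s` is a finite point of the model, `genSets_erase` if
`s` is the base point). So `C_R` can be separated from `C_{R'}`, and from `Z`, and the theory of joint tangent
vectors applies (`master3`). For the second part: for 100 percent of the `a` there are prime numbers `p` such that
`f` has exactly one double root modulo `p`, with the valuation one of the discriminant, and the Galois group over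
`K` is doubly transitive on the roots; the inertia groups of `L` above `p` have order two, so for ANY two roots there is
a place above `p` at which they collide alone (`pair_places`); the set `E` comes from a diagonal argument. For the
third part: if for two coordinates there is no suitable prime number, each prime number `p` which divides
`D = x_s - x_t` with odd multiplicity, and not `2 d N`, divides another difference, so either the squarefree part
of `D` is small (few `x`), or `D` and another difference have a large common divisor (few `x`, `count_pair`). For the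
last part: if there is no suitable place for `r_s (c)`, `r_t (c)` the values `∏ (c - z)`, `z` the good simple zeros of
`r_s - r_t`, have even valuations outside of a fixed finite set of places, which is possible for finitely many `c`
only, by Faltings' theorem for hyperelliptic curves of genus at least two (`fin_pair`, from the Mordell conjecture
of the library, helper422).
-/

set_option autoImplicit false

namespace Pool.Agent.Results.MP_640417_ag.MaximalTwoCover

open Polynomial NumberField IsDedekindDomain
open Pool.Agent.Results.MP_640417_ag.HyperellipticEveryPrime (AbsoluteGaloisGroup IsLattice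
  EveryPrime)

/-- The polynomial `∑ a i X ^ i`. -/
noncomputable def polynomial (K : Type) [Field K] {n : ℕ} (a : Fin (n + 1) → ℤ) : K[X] :=
  ∑ i : Fin (n + 1), C ((a i : ℤ) : K) * X ^ (i : ℕ)

/-- The derivative of the polynomial with the roots `r i`, `i ∈ R`, at the root `r j`. -/
noncomputable def slope {L : Type} [Field L] {n : ℕ} (r : Fin n → L) (R : Finset (Fin n))
    (j : Fin n) : L := ∏ k ∈ R.erase j, (r j - r k)

/-- The monic model of odd degree of the curve `c * y ^ 2 = ∏_{i ∈ R} (x - r i)`: the polynomial with the roots
`c * r i`, `i ∈ R`, for the base point at infinity (`none`), and with the roots `c * (D / (r i - r j))`, `i ∈ R`,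
`i ≠ j`, where `D` is the slope, for the base point `r j`. -/
noncomputable def branchModel {L : Type} [Field L] {n : ℕ} (r : Fin n → L)
    (R : Finset (Fin n)) (c : L) : Option (Fin n) → L[X]
  | none => ∏ i ∈ R, (X - C (c * r i))
  | some j => ∏ i ∈ R.erase j, (X - C (c * (slope r R j / (r i - r j))))

/-- The point at infinity is a base point for the sets of odd cardinality at least three, the root `j` is a base
point for the sets of even cardinality at least four which contain `j`. -/
def Admissible {n : ℕ} (R : Finset (Fin n)) : Option (Fin n) → Prop
  | none => Odd R.card ∧ 3 ≤ R.card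
  | some j => j ∈ R ∧ Even R.card ∧ 4 ≤ R.card

/-- The matrix `τ g` is congruent to `1` modulo four. -/
def TrivialModFour {K : Type} [Field K] {d : ℕ}
    (τ : AbsoluteGaloisGroup K →* Matrix (Fin d) (Fin d) ℚ_[2]) (g : AbsoluteGaloisGroup K) : Prop :=
  ∀ a b, ‖(τ g - 1) a b‖ < 1 / 2

/-- The lattice of `Z` is unramified modulo four at the place `v`: there is a finite Galois extension `M` of
`K`, unramified at `v`, such that the Galois group over `M` acts trivially modulo four. -/
def Unramified {K : Type} [Field K] [NumberField K] {d : ℕ}
    (τ : AbsoluteGaloisGroup K →* Matrix (Fin d) (Fin d) ℚ_[2])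
    (v : HeightOneSpectrum (𝓞 K)) : Prop :=
  ∃ (M : IntermediateField K (AlgebraicClosure K)) (_ : NumberField M), Normal K M ∧
    v.asIdeal.ramificationIdxIn (𝓞 M) = 1 ∧
    ∀ g : AbsoluteGaloisGroup K, (∀ x : M, g x = x) → TrivialModFour τ g

/-- The lattice of `Z` is unramified modulo four at all places which do not divide `N`. -/
def UnramifiedOutside {K : Type} [Field K] [NumberField K] (N : ℕ) {d : ℕ}
    (τ : AbsoluteGaloisGroup K →* Matrix (Fin d) (Fin d) ℚ_[2]) : Prop :=
  ∀ v : HeightOneSpectrum (𝓞 K), (N : 𝓞 K) ∉ v.asIdeal → Unramified τ v

/-- The property `P` holds for 100 percent of the integral vectors, ordered by height: for every `ε > 0` the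
number of the vectors `a` with coordinates of absolute value at most `H` for which `P` is false is at
most `ε (2 H + 1) ^ k` for all large `H`, where `k` is the number of the coordinates. -/
def AlmostAll {κ : Type} [Fintype κ] (P : (κ → ℤ) → Prop) : Prop :=
  ∀ ε : ℝ, 0 < ε → ∃ H₀ : ℕ, ∀ H : ℕ, H₀ ≤ H →
    ({a : κ → ℤ | (∀ k, |a k| ≤ H) ∧ ¬ P a}.ncard : ℝ) ≤ ε * (2 * H + 1) ^ Fintype.card κ

/-- The valuation of `r s - r t` at the place `w` is odd, and the valuations of all other differences of the points
are even (for example zero). -/
structure Collide {L : Type} [Field L] [NumberField L] {n : ℕ} (r : Fin n → L)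
    (w : HeightOneSpectrum (𝓞 L)) (s t : Fin n) : Prop where
  odd : Odd (WithZero.log (w.valuation L (r s - r t)))
  even : ∀ x y, x ≠ y → ¬ ((x = s ∨ x = t) ∧ (y = s ∨ y = t)) →
    Even (WithZero.log (w.valuation L (r x - r y)))

/-- The statement `EveryPrime` is true for the family of the curves `c R * y ^ 2 = ∏_{i ∈ R} (x - r i)` for all sets `R`
with at least three elements simultaneously, for any choice of the base points and any factors `c R` with even
valuations at all places which do not divide `N`. -/
def AllSubsets {L : Type} [Field L] [NumberField L] {n : ℕ} (r : Fin n → L) (N : ℕ) {d : ℕ}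
    (τ : AbsoluteGaloisGroup L →* Matrix (Fin d) (Fin d) ℚ_[2]) : Prop :=
  ∀ b : Finset (Fin n) → Option (Fin n), (∀ R : Finset (Fin n), 3 ≤ R.card → Admissible R (b R)) →
    ∀ c : Finset (Fin n) → L, (∀ R, c R ≠ 0) →
      (∀ (R : Finset (Fin n)) (w : HeightOneSpectrum (𝓞 L)), (N : 𝓞 L) ∉ w.asIdeal →
        Even (WithZero.log (w.valuation L (c R)))) →
      EveryPrime (fun R : {R : Finset (Fin n) // 3 ≤ R.card} =>
        branchModel r R.1 (c R.1) (b R.1)) τ

/-- The statement for the points `r i` and for all motives which are unramified modulo four outside of `N`. -/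
def Property {L : Type} [Field L] [NumberField L] {n : ℕ} (r : Fin n → L) (N : ℕ) : Prop :=
  ∀ (d : ℕ) (τ : AbsoluteGaloisGroup L →* Matrix (Fin d) (Fin d) ℚ_[2]),
    IsLattice τ → UnramifiedOutside N τ → AllSubsets r N τ

/-- The statement for the roots of the polynomial with the coefficients `a`, over the splitting field over `K`, outside
of `N a_n`. -/
def RootProperty (K : Type) [Field K] [NumberField K] (N : ℕ) {n : ℕ} (a : Fin (n + 1) → ℤ) :
    Prop :=
  ∀ (L : Type) [Field L] [NumberField L] [Algebra K L] (r : Fin n → L),
    Function.Injective r → (∀ i, (polynomial L a).eval (r i) = 0) →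
    IntermediateField.adjoin K (Set.range r) = ⊤ → Property r (N * (a (Fin.last n)).natAbs)

/-- The product of the differences `r i - r j`, `i < j`, of the sections. -/
noncomputable def discriminant {K : Type} [Field K] {n : ℕ} (r : Fin n → K[X]) : K[X] :=
  ∏ k, ∏ l ∈ Finset.Ioi k, (r k - r l)

/-- The simple zeros of the product of all differences at which the sections `s` and `t` meet. -/
def Meetings {K : Type} [Field K] {n : ℕ} (r : Fin n → K[X]) (s t : Fin n) :
    Set (AlgebraicClosure K) :=
  {z | aeval z (discriminant r) = 0 ∧ aeval z (derivative (discriminant r)) ≠ 0 ∧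
    aeval z (r s - r t) = 0}

/-- The model for odd cardinality. -/
theorem branchModel_none {L : Type} [Field L] {n : ℕ} (r : Fin n → L) (R : Finset (Fin n))
    (c x : L) : (branchModel r R c none).eval (c * x) = c ^ R.card * ∏ i ∈ R, (x - r i) := by
  change (∏ i ∈ R, (X - C (c * r i))).eval (c * x) = _
  rw [eval_prod, ← Finset.prod_const, ← Finset.prod_mul_distrib]
  refine Finset.prod_congr rfl fun i _ => ?_
  rw [eval_sub, eval_X, eval_C, mul_sub]

/-- The model for even cardinality. -/
theorem branchModel_some {L : Type} [Field L] {n : ℕ} {r : Fin n → L} (hr : Function.Injective r)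
    {R : Finset (Fin n)} {j : Fin n} (hj : j ∈ R) {c U : L} (hU : U ≠ 0) :
    slope r R j ^ 2 * (branchModel r R c (some j)).eval (c * U) =
      c ^ (R.card - 1) * (U ^ R.card * ∏ i ∈ R, (r j + slope r R j / U - r i)) := by
  set D := slope r R j with hD
  have h1 : ∀ i ∈ R.erase j, r j + D / U - r i =
      (r j - r i) * (U - D / (r i - r j)) * U⁻¹ := by
    intro i hi
    have h2 : r i - r j ≠ 0 := sub_ne_zero.2 fun h => (Finset.ne_of_mem_erase hi) (hr h)
    field_simp
    ring
  rw [← Finset.mul_prod_erase R _ hj, Finset.prod_congr rfl h1, Finset.prod_mul_distrib,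
    Finset.prod_mul_distrib, Finset.prod_const, Finset.card_erase_of_mem hj]
  have h3 : (branchModel r R c (some j)).eval (c * U) =
      c ^ (R.card - 1) * ∏ i ∈ R.erase j, (U - D / (r i - r j)) := by
    change (∏ i ∈ R.erase j, (X - C (c * (D / (r i - r j))))).eval (c * U) = _
    rw [eval_prod, ← Finset.card_erase_of_mem hj, ← Finset.prod_const, ← Finset.prod_mul_distrib]
    refine Finset.prod_congr rfl fun i _ => ?_
    rw [eval_sub, eval_X, eval_C, mul_sub]
  have h4 : ∏ i ∈ R.erase j, (r j - r i) = D := rfl
  have h5 : U ^ R.card = U * U ^ (R.card - 1) := by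
    rw [← pow_succ']
    congr 1
    have := Finset.card_pos.2 ⟨j, hj⟩
    omega
  rw [h3, h4, h5, inv_pow]
  field_simp
  ring

theorem model_eq {L : Type} [Field L] [NumberField L] {n : ℕ} (r : Fin n → L)
    (R : Finset (Fin n)) (c : L) (b : Option (Fin n)) :
    Pool.Agent.H852.J.prodR (Pool.Agent.H852.J.brT R b)
      (fun x => c * Pool.Agent.H852.J.brU r R b x) = branchModel r R c b := by
  cases b <;> rfl

theorem admissible_iff {n : ℕ} (R : Finset (Fin n)) (b : Option (Fin n)) :
    Pool.Agent.H852.J.Adm R b ↔ Admissible R b := by
  cases b <;> exact Iff.rfl

theorem collide_of_unit {L : Type} [Field L] [NumberField L] {n : ℕ} {r : Fin n → L}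
    {w : HeightOneSpectrum (𝓞 L)} {s t : Fin n}
    (h : Odd (WithZero.log (w.valuation L (r s - r t))))
    (h' : ∀ x y, x ≠ y → ¬ ((x = s ∨ x = t) ∧ (y = s ∨ y = t)) →
      w.valuation L (r x - r y) = 1) : Collide r w s t := by
  refine ⟨h, fun x y hxy hn => ?_⟩
  rw [h' x y hxy hn, WithZero.log_one]
  exact ⟨0, rfl⟩

/-- The criterion. -/
theorem criterion {n : ℕ} (hn : 3 ≤ n) {L : Type} [Field L] [NumberField L] (r : Fin n → L)
    (N : ℕ) (h : ∀ s t, s ≠ t → ∃ w : HeightOneSpectrum (𝓞 L), Collide r w s t ∧
      (2 : 𝓞 L) ∉ w.asIdeal ∧ (N : 𝓞 L) ∉ w.asIdeal) : Property r N := by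
  intro d τ hτ hun b hb c hc hce
  have h1 := Pool.Agent.H852.J.all_subsets_par (r := r) (by rwa [Fintype.card_fin]) b
    (fun R hR => (admissible_iff _ _).2 (hb R hR)) (n₁ := N) c hc hce (fun s t hst => by
      obtain ⟨w, hw, h2, h3⟩ := h s t hst
      exact ⟨w, ⟨hw.odd, hw.even⟩, h2, h3⟩) τ hτ hun
  have h3 : (fun R : {R : Finset (Fin n) // 3 ≤ R.card} =>
      Pool.Agent.H852.J.prodR (Pool.Agent.H852.J.brT R.1 (b R.1))
        (fun x => c R.1 * Pool.Agent.H852.J.brU r R.1 (b R.1) x)) =
      fun R => branchModel r R.1 (c R.1) (b R.1) := by
    funext R
    exact model_eq r _ _ _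
  rw [h3] at h1
  exact h1

/-- **The Tate conjecture for the maximal covers of exponent two of the line with given branch points.** -/
theorem result {n : ℕ} (hn : 3 ≤ n) :
    (∀ (L : Type) [Field L] [NumberField L] (r : Fin n → L) (N : ℕ),
      (∀ s t, s ≠ t → ∃ w : HeightOneSpectrum (𝓞 L), Collide r w s t ∧
        (2 : 𝓞 L) ∉ w.asIdeal ∧ (N : 𝓞 L) ∉ w.asIdeal) → Property r N) ∧
    (∃ E : Set (Fin (n + 1) → ℤ), AlmostAll (fun a => a ∉ E) ∧
      ∀ (K : Type) [Field K] [NumberField K] (N : ℕ), 1 ≤ N →
        {a : Fin (n + 1) → ℤ | a ∉ E ∧ ¬ RootProperty K N a}.Finite) ∧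
    (∃ E : Set (Fin n → ℤ),
      (∀ H : ℕ, 1 ≤ H → ({x ∈ E | ∀ k, |x k| ≤ (H : ℤ)}.ncard : ℝ) ≤
        50 * n ^ 4 * (2 * H + 1) ^ n / (H : ℝ) ^ (((6 * (n ^ 2 + 1) : ℕ) : ℝ)⁻¹)) ∧
      ∀ (K : Type) [Field K] [NumberField K] (N : ℕ), 1 ≤ N → ∀ x ∉ E,
        (∃ k, ((2 * (NumberField.discr K).natAbs * N : ℕ) : ℤ) ^ (6 * (n ^ 2 + 1)) ≤ |x k|) →
        Property (fun i => (x i : K)) N) ∧
    (∀ (K : Type) [Field K] [NumberField K] (r : Fin n → K[X]),
      (∀ s t, s ≠ t → 5 ≤ (Meetings r s t).ncard) → ∀ N : ℕ, 1 ≤ N →
      {c : K | ¬ Property (fun i => (r i).eval c) N}.Finite) := by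
  classical
  refine ⟨fun L _ _ r N h => criterion hn r N h, ?_, ?_, fun K _ _ r h5 N hN => ?_⟩
  · obtain ⟨E, hE, hE'⟩ := Pool.Agent.H852.J.single_all hn
    refine ⟨E, fun ε hε => ?_, fun K _ _ N hN => ?_⟩
    · obtain ⟨H₀, h⟩ := hE.ncard hε
      refine ⟨H₀, fun H hH => le_trans (le_of_eq ?_) (h H hH)⟩
      congr 2
      ext a
      simp only [not_not]
    refine (hE' K N hN).subset ?_
    rintro a ⟨ha, hna⟩
    refine ⟨ha, fun h => hna ?_⟩
    intro L _ _ _ r hr hroot htop
    have hroot' : ∀ i, Pool.Agent.H852.J.evZ (r i) (Pool.Agent.H852.J.polyA a) = 0 := by
      intro i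
      have h1 := hroot i
      have h2 : (Pool.Agent.H852.J.polyA a).map (Int.castRingHom L) = polynomial L a :=
        Pool.Agent.H852.J.polyA_map (Int.castRingHom L) a
      rw [← h2, ← Pool.Agent.H852.J.evZ_eq_eval] at h1
      exact h1
    refine criterion hn r _ fun s t hst => ?_
    obtain ⟨w, hw, h2, h3⟩ :=
      Pool.Agent.H852.J.pair_places hn a h.1 h.2.1 h.2.2.last r hr hroot' htop s t hst
    exact ⟨w, collide_of_unit hw.odd hw.unit, h2, h3⟩
  · refine ⟨Pool.Agent.H852.J.excP n, fun H hH => Pool.Agent.H852.J.excP_card (by omega) hH,
      fun K _ _ N hN x hx hh => ?_⟩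
    have hdisc : 0 < (NumberField.discr K).natAbs :=
      Int.natAbs_pos.2 (NumberField.discr_ne_zero K)
    have h := Pool.Agent.H852.J.excP_all hx
      (n₀ := 2 * (NumberField.discr K).natAbs * N) (by positivity) hh
    refine criterion hn _ N fun s t hst => ?_
    obtain ⟨w, hw, h2, h3⟩ := (h s t hst).place (K := K)
    exact ⟨w, collide_of_unit hw.odd hw.unit, h2, h3⟩
  · have hN0 : (N : K) ≠ 0 := by
      have h1 : N ≠ 0 := by omega
      exact_mod_cast h1
    have hSfin : {v : HeightOneSpectrum (𝓞 K) | (N : 𝓞 K) ∈ v.asIdeal}.Finite := by
      refine (Pool.Agent.H422.HE.finite_unit (N : K) hN0).subset ?_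
      intro v hv h
      have h1 : v.valuation K (algebraMap (𝓞 K) K N) < 1 := (v.valuation_lt_one_iff_mem _).2 hv
      rw [map_natCast, h] at h1
      exact lt_irrefl _ h1
    refine (Pool.Agent.H852.J.family_places (r := r) (by omega) h5 hSfin).subset ?_
    intro c hc h
    refine hc (criterion hn _ N fun s t hst => ?_)
    obtain ⟨w, hw, h2, h3⟩ := h s t hst
    exact ⟨w, collide_of_unit hw.odd hw.unit, h2, h3⟩

end Pool.Agent.Results.MP_640417_ag.MaximalTwoCover
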