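import Mathlib
import Pool.Agent.H926.C.Mark

/-!
# Tate classes on all abelian varieties built from the factors of one of dimension at most seven

Let `A` be a complex abelian variety of dimension at most seven, such that
* the endomorphism algebra of each simple abelian subvariety contains a maximal commutative subfield
  which is totally real or quadratic (`RealOrQuadratic`: Albert types I and II, type III with centre
  `ℚ`, imaginary quadratic fields),
* no simple factor of dimension four or six has only the trivial endomorphisms.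

Let `X` be any abelian variety, of any dimension, over a field `k ⊂ ℂ` which is finitely generated over
`ℚ` (or over its algebraic closure), all of whose simple factors over `ℂ` are factors of `A`; for
instance a form of a power `A ^ n`, or `A` itself.

**Theorem.** For each prime number `ℓ` all `ℓ`-adic Tate classes on `X` of all degrees are
`ℚ_ℓ`-combinations of the classes in the ring generated by the classes of divisors and by the pull-backs
of Weil classes for imaginary quadratic fields
* on abelian fourfolds,
* on abelian sixfolds of split Weil type (that is, of discriminant `-1`),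
* if `dim A ≥ 6`: on abelian eightfolds of split Weil type and on simple sixfolds `Y` which are quotients
  of `X` and which are not of split Weil type for any imaginary quadratic field,
* if `dim A = 7`: on abelian varieties of dimension ten of split Weil type,

all of dimension at most `dim X` (see `Pool.Agent.H926.C.Q0`, `HasSplitDisc`: the discriminant is
`(-1) ^ m` times a norm, `2 m` the dimension). Moreover,
* if `dim A ≤ 5`, or
* if `dim X ≤ 7` and no simple factor of `X` over `ℂ` is a non-split sixfold (`IsNonSplitSixfold`: a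
  simple sixfold without real multiplication, with a non-zero Weil class for some imaginary quadratic
  field, but not of split Weil type for any such field),

then all these classes are in the ring (`WeilRing`) generated by the classes of divisors and by the
pull-backs of Weil classes for imaginary quadratic fields on abelian fourfolds and on abelian sixfolds of
discriminant `-1`. These are algebraic by theorems of Lefschetz and Markman (2025). So, with these
theorems, the Tate conjecture holds for all these `X`, over all finite extensions of `k`.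

The Tate module is described as in the library (`IsTateModule`: Weil pairing, Faltings, Hodge–Tate
decomposition, Serre, Pink, which are known properties of the Tate module of `X`); `IsTateClass` are the
Tate classes: the alternating forms on the Tate module in `2 m` variables which are multiplied by the
`m`-th power of the cyclotomic character by a subgroup of finite index of the Galois group.

Proof. Tate classes on `X` are combinations of Hodge classes (`Pool.Agent.H926.T.th7`, the Mumford–Tate
conjecture for these `X`), and the Hodge classes on `X` are in the ring by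
`MP_e12fcd_ag.ProductsDimensionSeven`.
-/

namespace Pool.Agent.Results.MP_640417_ag.ProductsDimensionSeven

open Module TensorProduct
open Pool.Agent.Y90 (AV)
open Pool.Agent.Y90.St (IsHom IsPolarization WeilRing)
open Pool.Agent.R915 (IsFactor)
open Pool.Agent.Y224.TS.St (IsTateModule)
open Pool.Agent.H926.A.Quad (RealOrQuadratic)
open Pool.Agent.H926.C (IsNonSplitSixfold)
open Pool.Agent.H926.C.Ring (SplitRing)

/-- All factors of `A` of dimensions four and six have endomorphisms besides the scalars. -/
def NoTrivialEndomorphisms (A : AV) : Prop :=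
  ∀ Y, IsFactor Y A → finrank ℂ Y.T = 4 ∨ finrank ℂ Y.T = 6 →
    ∃ f, IsHom Y.per Y.per f ∧ ∀ c : ℚ, f ≠ c • 1

/-- `φ` is a Tate class in `H^{2m}(X, ℚ_ℓ)(m)`, for some finite extension of the field. -/
def IsTateClass {ℓ : ℕ} [Fact ℓ.Prime] {H Γ : Type} [AddCommGroup H] [Module ℚ H] [Group Γ]
    (ρ : Representation ℚ_[ℓ] Γ (ℚ_[ℓ] ⊗[ℚ] H)) (χ : Γ →* ℚ_[ℓ]) (m : ℕ)
    (φ : (ℚ_[ℓ] ⊗[ℚ] H) [⋀^Fin (2 * m)]→ₗ[ℚ_[ℓ]] ℚ_[ℓ]) : Prop :=
  ∃ Δ : Subgroup Γ, Δ.FiniteIndex ∧ ∀ g ∈ Δ, ∀ v : Fin (2 * m) → ℚ_[ℓ] ⊗[ℚ] H,
    φ (fun k => ρ g (v k)) = χ g ^ m * φ v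

/-- **Tate classes on the abelian varieties built from the factors of one of dimension at most seven** are
combinations of products of divisors and of Weil classes for imaginary quadratic fields on fourfolds, on
sixfolds, eightfolds (only if `dim A ≥ 6`) and tenfolds (only if `dim A = 7`) of split Weil type, and on
simple sixfold quotients which are not of split Weil type (only if `dim A ≥ 6`). If `dim A ≤ 5`, or if
`dim X ≤ 7` and no factor of `X` is a non-split sixfold, the Weil classes on fourfolds and on sixfolds of
discriminant `-1` (which are algebraic) suffice. -/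
theorem result (A X : AV) (h7 : finrank ℂ A.T ≤ 7) (hR : RealOrQuadratic A.per)
    (hA : NoTrivialEndomorphisms A) (hX : ∀ Y, IsFactor Y X → IsFactor Y A)
    (E : X.H → X.H → ℚ) (hE : IsPolarization X.per E)
    (ℓ : ℕ) [Fact ℓ.Prime] [Algebra ℚ_[ℓ] ℂ] [Algebra.IsAlgebraic ℚ_[ℓ] ℂ]
    {Γ : Type} [Group Γ] (ρ : Representation ℚ_[ℓ] Γ (ℚ_[ℓ] ⊗[ℚ] X.H)) (χ : Γ →* ℚ_[ℓ])
    (hρ : IsTateModule X.per E ρ χ) (m : ℕ)
    (φ : (ℚ_[ℓ] ⊗[ℚ] X.H) [⋀^Fin (2 * m)]→ₗ[ℚ_[ℓ]] ℚ_[ℓ]) (hφ : IsTateClass ρ χ m φ) :
    ∃ (n : ℕ) (c : Fin n → ℚ_[ℓ]) (f : Fin n → (X.H [⋀^Fin (2 * m)]→ₗ[ℚ] ℚ)),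
      (∀ j, SplitRing X.per (finrank ℂ A.T) (Fin (2 * m)) (f j) ∧
        ((finrank ℂ A.T ≤ 5 ∨ (finrank ℂ X.T ≤ 7 ∧ ∀ Y, IsFactor Y X → ¬IsNonSplitSixfold Y.per)) →
          WeilRing X.per (Fin (2 * m)) (f j))) ∧
      ∀ v : Fin (2 * m) → X.H, φ (fun k => (1 : ℚ_[ℓ]) ⊗ₜ[ℚ] v k) =
        ∑ j, c j * ((f j v : ℚ) : ℚ_[ℓ]) := by
  obtain ⟨n, c, f, h1, h2⟩ := Pool.Agent.H926.T.th7 A X h7 hA hX hE hρ
    (Nat.card_fin (2 * m)) φ hφ
  have h3 : ∀ j, SplitRing X.per (finrank ℂ A.T) (Fin (2 * m)) (f j) := by
    refine fun j => Pool.Agent.H926.C.Ring.hodge_small A X h7 hR hX (Or.inr ?_) (h1 j)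
    rintro Y hY ⟨-, h4, hs, -⟩
    obtain ⟨f, hf, hfn⟩ := hA Y (hX Y hY) (Or.inl h4)
    obtain ⟨c, hc⟩ := hs f hf
    exact hfn c (LinearMap.ext fun v => hc v)
  exact ⟨n, c, f, fun j => ⟨h3 j, fun h => Pool.Agent.H926.C.markman_of X h (h3 j)⟩, h2⟩

end Pool.Agent.Results.MP_640417_ag.ProductsDimensionSeven
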